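import Mathlib

/-!
Blocks of consecutive integers have almost equal `θ`-powers when `θ < 1`.
-/

namespace Q33.TP

open MeasureTheory Filter Topology

/-- the approximation function -/
noncomputable def rho (m : ℕ) : ℝ :=
  if 1 ≤ Nat.log 4 m ∧ m < 4 ^ Nat.log 4 m + Nat.log 4 m ^ 2 then
    (m : ℝ) / (Nat.log 4 m : ℝ) ^ 2 else 0

theorem rho_nonneg (m : ℕ) : 0 ≤ rho m := by
  unfold rho
  split_ifs
  · positivity
  · exact le_rfl

theorem sq_le_pow (l : ℕ) : l ^ 2 ≤ 4 ^ l := by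
  have h : l < 2 ^ l := Nat.lt_two_pow_self
  calc l ^ 2 ≤ (2 ^ l) ^ 2 := Nat.pow_le_pow_left h.le 2
    _ = 4 ^ l := by rw [← pow_mul, mul_comm, pow_mul]; norm_num

theorem log_block (l m : ℕ) (h1 : 4 ^ l ≤ m) (h2 : m < 4 ^ l + l ^ 2) : Nat.log 4 m = l := by
  apply Nat.log_eq_of_pow_le_of_lt_pow h1
  have := sq_le_pow l
  rw [pow_succ]
  omega

theorem rho_block (l m : ℕ) (hl : 1 ≤ l) (h1 : 4 ^ l ≤ m) (h2 : m < 4 ^ l + l ^ 2) :
    rho m / m = 1 / (l : ℝ) ^ 2 := by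
  have h3 := log_block l m h1 h2
  unfold rho
  rw [h3, if_pos ⟨hl, h2⟩]
  have h4 : (0 : ℝ) < m := by
    have : 0 < m := lt_of_lt_of_le (by positivity) h1
    exact_mod_cast this
  field_simp

/-- divergence -/
theorem not_summable : ¬ Summable (fun m : ℕ => rho m / m) := by
  intro h
  obtain ⟨s, hs⟩ := summable_iff_vanishing_norm.mp h 1 one_pos
  obtain ⟨l, hl1, hl⟩ : ∃ l : ℕ, 1 ≤ l ∧ ∀ m ∈ s, m < 4 ^ l := by
    refine ⟨s.sup id + 1, by omega, fun m hm => ?_⟩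
    have h1 : m ≤ s.sup id := Finset.le_sup (f := id) hm
    have h2 : s.sup id + 1 < 4 ^ (s.sup id + 1) := Nat.lt_pow_self (by norm_num)
    omega
  have h1 := hs (Finset.Ico (4 ^ l) (4 ^ l + l ^ 2)) (by
    rw [Finset.disjoint_left]
    intro m hm hms
    have := hl m hms
    rw [Finset.mem_Ico] at hm
    omega)
  have h2 : ∑ i ∈ Finset.Ico (4 ^ l) (4 ^ l + l ^ 2), rho i / i = 1 := by
    rw [Finset.sum_congr rfl (fun m hm => rho_block l m hl1 (Finset.mem_Ico.mp hm).1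
      (Finset.mem_Ico.mp hm).2), Finset.sum_const, Nat.card_Ico, Nat.add_sub_cancel_left,
      nsmul_eq_mul]
    have : (l : ℝ) ≠ 0 := by
      have : l ≠ 0 := by omega
      exact_mod_cast this
    push_cast
    field_simp
  rw [h2] at h1
  norm_num at h1

/-- the set of exponents for which `N ^ θ` is close to a positive integer -/
def T (N : ℕ) (δ : ℝ) : Set ℝ := {θ | 0 < θ ∧ θ < 1 ∧ ∃ b : ℕ, 1 ≤ b ∧ |(N : ℝ) ^ θ - b| ≤ δ}

theorem vol_T (N : ℕ) (hN : 4 ≤ N) (δ : ℝ) (hδ : 0 ≤ δ) :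
    volume (T N δ) ≤ ENNReal.ofReal (8 * δ) := by
  have hN' : (4 : ℝ) ≤ N := by exact_mod_cast hN
  have hlogN : 1 ≤ Real.log N := by
    have h1 : Real.exp 1 ≤ N := by
      have := Real.exp_one_lt_d9
      linarith
    have := Real.log_le_log (Real.exp_pos 1) h1
    rwa [Real.log_exp] at this
  rcases le_or_gt δ (1 / 2) with hd | hd
  · have hsub : T N δ ⊆ ⋃ b ∈ Finset.Icc 1 N,
        Set.Icc (Real.log ((b : ℝ) - δ) / Real.log N) (Real.log ((b : ℝ) + δ) / Real.log N) := by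
      rintro θ ⟨h0, h1, b, hb, hab⟩
      have h2 : (N : ℝ) ^ θ < N := by
        have := Real.rpow_lt_rpow_of_exponent_lt (by linarith : (1 : ℝ) < N) h1
        rwa [Real.rpow_one] at this
      obtain ⟨h3, h4⟩ := abs_le.mp hab
      have hb1 : (1 : ℝ) ≤ b := by exact_mod_cast hb
      have hbN : b ≤ N := by
        have h5 : (b : ℝ) < N + 1 := by linarith
        have h6 : b < N + 1 := by exact_mod_cast h5
        omega
      simp only [Set.mem_iUnion, Finset.mem_Icc]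
      refine ⟨b, ⟨hb, hbN⟩, ?_, ?_⟩
      · rw [div_le_iff₀ (by linarith), ← Real.log_rpow (by linarith)]
        exact Real.log_le_log (by linarith) (by linarith)
      · rw [le_div_iff₀ (by linarith), ← Real.log_rpow (by linarith)]
        exact Real.log_le_log (by positivity) (by linarith)
    refine (measure_mono hsub).trans ((measure_biUnion_finset_le _ _).trans ?_)
    have hlen : ∀ b ∈ Finset.Icc 1 N, volume (Set.Icc (Real.log ((b : ℝ) - δ) / Real.log N)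
        (Real.log ((b : ℝ) + δ) / Real.log N)) ≤ ENNReal.ofReal (4 * δ / Real.log N * (b : ℝ)⁻¹) := by
      intro b hb
      rw [Finset.mem_Icc] at hb
      have hb1 : (1 : ℝ) ≤ b := by exact_mod_cast hb.1
      rw [Real.volume_Icc]
      apply ENNReal.ofReal_le_ofReal
      rw [← sub_div, ← Real.log_div (by linarith) (by linarith)]
      have h5 : Real.log (((b : ℝ) + δ) / (b - δ)) ≤ ((b : ℝ) + δ) / (b - δ) - 1 :=
        Real.log_le_sub_one_of_pos (div_pos (by linarith) (by linarith))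
      have h6 : ((b : ℝ) + δ) / (b - δ) - 1 ≤ 4 * δ * (b : ℝ)⁻¹ := by
        rw [div_sub_one (by linarith), div_le_iff₀ (by linarith)]
        have h7 : (1 / 2 : ℝ) ≤ (b : ℝ)⁻¹ * (b - δ) := by
          rw [inv_mul_eq_div, le_div_iff₀ (by linarith)]
          linarith
        nlinarith
      have h8 : Real.log (((b : ℝ) + δ) / (b - δ)) ≤ 4 * δ * (b : ℝ)⁻¹ := h5.trans h6
      have h9 := div_le_div_of_nonneg_right h8 (by linarith : (0 : ℝ) ≤ Real.log N)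
      refine h9.trans (le_of_eq ?_)
      ring
    refine (Finset.sum_le_sum hlen).trans ?_
    rw [← ENNReal.ofReal_sum_of_nonneg (fun b _ => by positivity)]
    apply ENNReal.ofReal_le_ofReal
    rw [← Finset.mul_sum]
    have hharm : ∑ b ∈ Finset.Icc 1 N, ((b : ℝ))⁻¹ ≤ 1 + Real.log N := by
      have h1 := harmonic_le_one_add_log N
      have h2 : ((harmonic N : ℚ) : ℝ) = ∑ b ∈ Finset.Icc 1 N, ((b : ℝ))⁻¹ := by
        rw [harmonic_eq_sum_Icc]
        push_cast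
        rfl
      rwa [h2] at h1
    have h10 : 4 * δ / Real.log N * ∑ b ∈ Finset.Icc 1 N, ((b : ℝ))⁻¹ ≤
        4 * δ / Real.log N * (1 + Real.log N) :=
      mul_le_mul_of_nonneg_left hharm (by positivity)
    refine h10.trans ?_
    rw [div_mul_eq_mul_div, div_le_iff₀ (by linarith)]
    nlinarith
  · have hsub : T N δ ⊆ Set.Ioo 0 1 := fun θ h => ⟨h.1, h.2.1⟩
    refine (measure_mono hsub).trans ?_
    rw [Real.volume_Ioo, sub_zero]
    apply ENNReal.ofReal_le_ofReal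
    linarith

/-- powers in a block -/
theorem pow_block (N m : ℕ) (hN : 1 ≤ N) (hm : N ≤ m) (θ α : ℝ) (h0 : 0 < θ) (h1 : θ < 1)
    (hα : θ ≤ α) :
    |(m : ℝ) ^ θ - (N : ℝ) ^ θ| ≤ ((m : ℝ) - N) * (N : ℝ) ^ (α - 1) := by
  have hN' : (1 : ℝ) ≤ N := by exact_mod_cast hN
  have hm' : (N : ℝ) ≤ m := by exact_mod_cast hm
  have h2 : (N : ℝ) ^ θ ≤ (m : ℝ) ^ θ := Real.rpow_le_rpow (by linarith) hm' h0.le
  rw [abs_of_nonneg (by linarith)]
  have h3 : (m : ℝ) ^ θ = (N : ℝ) ^ θ * (1 + ((m : ℝ) - N) / N) ^ θ := by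
    rw [← Real.mul_rpow (by linarith) (by positivity)]
    congr 1
    field_simp
    ring
  have h4 : (1 + ((m : ℝ) - N) / N) ^ θ ≤ 1 + θ * (((m : ℝ) - N) / N) :=
    _root_.rpow_one_add_le_one_add_mul_self (by
      have : 0 ≤ ((m : ℝ) - N) / N := div_nonneg (by linarith) (by linarith)
      linarith) h0.le h1.le
  have h5 : 0 ≤ ((m : ℝ) - N) / N := div_nonneg (by linarith) (by linarith)
  have h6 : (1 + ((m : ℝ) - N) / N) ^ θ ≤ 1 + ((m : ℝ) - N) / N := by nlinarith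
  have h7 : (0 : ℝ) < (N : ℝ) ^ θ := Real.rpow_pos_of_pos (by linarith) _
  have h8 : (m : ℝ) ^ θ - (N : ℝ) ^ θ ≤ (N : ℝ) ^ θ * (((m : ℝ) - N) / N) := by
    rw [h3]; nlinarith
  have h9 : (N : ℝ) ^ θ * (((m : ℝ) - N) / N) = ((m : ℝ) - N) * (N : ℝ) ^ (θ - 1) := by
    rw [Real.rpow_sub (by linarith), Real.rpow_one]
    ring
  rw [h9] at h8
  refine h8.trans (mul_le_mul_of_nonneg_left ?_ (by linarith))
  exact Real.rpow_le_rpow_of_exponent_le hN' (by linarith)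

/-- the bad sets -/
def S (l : ℕ) : Set ℝ := {θ | 0 < θ ∧ θ < 1 ∧ ∃ m : ℕ, 4 ^ l ≤ m ∧ m < 4 ^ l + l ^ 2 ∧
  ∃ b : ℕ, 1 ≤ b ∧ |(m : ℝ) ^ θ - b| ≤ 1 / (l : ℝ) ^ 2}

theorem S_sub (l : ℕ) (α : ℝ) :
    S l ∩ Set.Iic α ⊆ T (4 ^ l) (1 / (l : ℝ) ^ 2 + (l : ℝ) ^ 2 * ((4 : ℝ) ^ (α - 1)) ^ l) := by
  rintro θ ⟨⟨h0, h1, m, hm1, hm2, b, hb, hab⟩, hα⟩
  refine ⟨h0, h1, b, hb, ?_⟩
  have h2 := pow_block (4 ^ l) m (Nat.one_le_pow _ _ (by norm_num)) hm1 θ α h0 h1 hα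
  have h3 : ((m : ℝ) - ((4 ^ l : ℕ) : ℝ)) ≤ (l : ℝ) ^ 2 := by
    have : (m : ℝ) ≤ ((4 ^ l + l ^ 2 : ℕ) : ℝ) := by exact_mod_cast hm2.le
    push_cast at this ⊢
    linarith
  have h4 : (((4 ^ l : ℕ) : ℝ)) ^ (α - 1) = ((4 : ℝ) ^ (α - 1)) ^ l := by
    push_cast
    rw [← Real.rpow_natCast, ← Real.rpow_natCast, ← Real.rpow_mul (by norm_num),
      ← Real.rpow_mul (by norm_num), mul_comm]
  rw [h4] at h2
  have h5 : ((m : ℝ) - ((4 ^ l : ℕ) : ℝ)) * ((4 : ℝ) ^ (α - 1)) ^ l ≤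
      (l : ℝ) ^ 2 * ((4 : ℝ) ^ (α - 1)) ^ l :=
    mul_le_mul_of_nonneg_right h3 (by positivity)
  have h6 : (((4 ^ l : ℕ) : ℝ)) ^ θ - b = ((m : ℝ) ^ θ - b) - ((m : ℝ) ^ θ - ((4 ^ l : ℕ) : ℝ) ^ θ) := by
    ring
  rw [h6]
  refine (abs_sub _ _).trans ?_
  linarith

theorem summable_bound (r : ℝ) (h0 : 0 ≤ r) (h1 : r < 1) :
    Summable fun l : ℕ => 8 * (1 / ((l + 1 : ℕ) : ℝ) ^ 2 + ((l + 1 : ℕ) : ℝ) ^ 2 * r ^ (l + 1)) := by
  apply Summable.mul_left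
  apply Summable.add
  · have h := Real.summable_one_div_nat_pow.mpr (show 1 < 2 by norm_num)
    exact (summable_nat_add_iff (f := fun n : ℕ => 1 / (n : ℝ) ^ 2) 1).mpr h
  · have h := summable_pow_mul_geometric_of_norm_lt_one 2 (r := r) (by
      rw [Real.norm_eq_abs, abs_of_nonneg h0]; exact h1)
    exact (summable_nat_add_iff (f := fun n : ℕ => (n : ℝ) ^ 2 * r ^ n) 1).mpr h

theorem ae_evt (α : ℝ) (hα : α < 1) : ∀ᵐ θ ∂(volume : Measure ℝ), ∀ᶠ l : ℕ in atTop,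
    θ ∉ S (l + 1) ∩ Set.Iic α := by
  apply ae_eventually_notMem
  have hr1 : (4 : ℝ) ^ (α - 1) < 1 := Real.rpow_lt_one_of_one_lt_of_neg (by norm_num) (by linarith)
  have hr0 : (0 : ℝ) ≤ (4 : ℝ) ^ (α - 1) := by positivity
  have hle : ∀ l : ℕ, volume (S (l + 1) ∩ Set.Iic α) ≤ ENNReal.ofReal
      (8 * (1 / ((l + 1 : ℕ) : ℝ) ^ 2 + ((l + 1 : ℕ) : ℝ) ^ 2 * ((4 : ℝ) ^ (α - 1)) ^ (l + 1))) := by
    intro l
    refine (measure_mono (S_sub (l + 1) α)).trans (vol_T _ ?_ _ (by positivity))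
    calc 4 = 4 ^ 1 := by norm_num
      _ ≤ 4 ^ (l + 1) := Nat.pow_le_pow_right (by norm_num) (by omega)
  refine ne_top_of_le_ne_top ?_ (ENNReal.tsum_le_tsum hle)
  exact (summable_bound _ hr0 hr1).tsum_ofReal_ne_top

theorem ae_irr : ∀ᵐ θ ∂(volume : Measure ℝ), ∀ a b : ℕ, 2 ≤ a → (a : ℝ) ^ θ ≠ b := by
  have hc : (Set.range fun q : ℕ × ℕ => Real.log q.2 / Real.log q.1).Countable :=
    Set.countable_range _
  have h0 := hc.measure_zero volume
  have h1 : ∀ᵐ θ ∂(volume : Measure ℝ), θ ∉ Set.range fun q : ℕ × ℕ => Real.log q.2 / Real.log q.1 :=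
    measure_eq_zero_iff_ae_notMem.mp h0
  filter_upwards [h1] with θ hθ a b ha hab
  apply hθ
  refine ⟨(a, b), ?_⟩
  have ha' : (2 : ℝ) ≤ a := by exact_mod_cast ha
  have hlog : 0 < Real.log a := Real.log_pos (by linarith)
  simp only
  rw [← hab, Real.log_rpow (by linarith)]
  field_simp

/-- For almost every exponent in the unit interval there are only finitely many solutions. -/
theorem ae_finite : ∀ᵐ θ ∂(volume.restrict (Set.Ioo (0 : ℝ) 1)),
    {q : ℕ × ℕ | 1 ≤ q.1 ∧ 1 ≤ q.2 ∧ |(q.1 : ℝ) ^ θ - q.2| ≤ rho q.1 / q.1}.Finite := by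
  rw [ae_restrict_iff' measurableSet_Ioo]
  have h1 : ∀ᵐ θ ∂(volume : Measure ℝ), ∀ n : ℕ, ∀ᶠ l : ℕ in atTop,
      θ ∉ S (l + 1) ∩ Set.Iic (1 - 1 / ((n : ℝ) + 1)) :=
    ae_all_iff.mpr fun n => ae_evt _ (by
      have : (0 : ℝ) < 1 / ((n : ℝ) + 1) := by positivity
      linarith)
  filter_upwards [h1, ae_irr] with θ hev hirr hθ
  obtain ⟨h0, h1⟩ := hθ
  obtain ⟨n, hn⟩ := exists_nat_one_div_lt (show 0 < 1 - θ by linarith)
  obtain ⟨L, hL⟩ := eventually_atTop.mp (hev n)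
  have hnot : ∀ l ≥ L + 1, θ ∉ S l := by
    intro l hl hmem
    obtain ⟨l', rfl⟩ : ∃ l', l = l' + 1 := ⟨l - 1, by omega⟩
    exact hL l' (by omega) ⟨hmem, by
      change θ ≤ _
      linarith⟩
  apply Set.Finite.subset ((Set.finite_Iic (4 ^ (L + 1) : ℕ)).prod
    (Set.finite_Iic (4 ^ (L + 1) + 1 : ℕ)))
  rintro ⟨a, b⟩ ⟨ha, hb, hab⟩
  simp only at ha hb hab
  have ha' : (1 : ℝ) ≤ a := by exact_mod_cast ha
  have key : a ≤ 4 ^ (L + 1) ∧ rho a / a ≤ 1 := by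
    by_cases hcase : 1 ≤ Nat.log 4 a ∧ a < 4 ^ Nat.log 4 a + Nat.log 4 a ^ 2
    · obtain ⟨hl, hlt⟩ := hcase
      have hle : 4 ^ Nat.log 4 a ≤ a := Nat.pow_log_le_self 4 (by omega)
      rw [rho_block _ a hl hle hlt] at hab
      have hmem : θ ∈ S (Nat.log 4 a) := ⟨h0, h1, a, hle, hlt, b, hb, hab⟩
      have hlL : Nat.log 4 a < L + 1 := by
        by_contra hcon
        exact hnot _ (not_lt.mp hcon) hmem
      refine ⟨?_, ?_⟩
      · have h3 : a < 4 ^ (Nat.log 4 a + 1) := Nat.lt_pow_succ_log_self (by norm_num) a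
        have h4 : 4 ^ (Nat.log 4 a + 1) ≤ 4 ^ (L + 1) :=
          Nat.pow_le_pow_right (by norm_num) (by omega)
        omega
      · rw [rho_block _ a hl hle hlt]
        have : (1 : ℝ) ≤ (Nat.log 4 a : ℝ) := by exact_mod_cast hl
        rw [div_le_one (by positivity)]
        nlinarith
    · have hr : rho a = 0 := if_neg hcase
      rw [hr, zero_div] at hab
      have h3 : (a : ℝ) ^ θ = b := by
        have := abs_nonpos_iff.mp hab
        linarith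
      have h4 : a < 2 := by
        by_contra hcon
        exact hirr a b (not_lt.mp hcon) h3
      refine ⟨?_, ?_⟩
      · have : 1 ≤ 4 ^ (L + 1) := Nat.one_le_pow _ _ (by norm_num)
        omega
      · rw [hr, zero_div]; norm_num
  refine ⟨key.1, ?_⟩
  have h5 : (a : ℝ) ^ θ ≤ a := by
    have := Real.rpow_le_rpow_of_exponent_le ha' h1.le
    rwa [Real.rpow_one] at this
  have h6 := (abs_le.mp hab).1
  have h7 : (b : ℝ) ≤ ((4 ^ (L + 1) + 1 : ℕ) : ℝ) := by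
    have h8 : (a : ℝ) ≤ ((4 ^ (L + 1) : ℕ) : ℝ) := by exact_mod_cast key.1
    have h9 := key.2
    push_cast at h8 ⊢
    linarith
  exact_mod_cast h7

end Q33.TP
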